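import Mathlib
import Pool.Agent.H20.AAE2.FIN

/-!
# Kernels of epimorphisms of polynomial rings over infinite fields

For an infinite field `k` and `n ≥ m + 3`, `2n ≥ 3m + 4`, the kernel of every surjection
`k[X_1..X_n] → k[Y_1..Y_m]` of `k`-algebras is generated by `n - m` elements.
-/

set_option autoImplicit false

universe u

namespace Pool.Agent.Results.MP_ae801b_ag.InfiniteField

theorem result : ∀ (k : Type u) [Field k] [Infinite k] (n m : ℕ), m + 3 ≤ n →
    3 * m + 4 ≤ 2 * n →
    ∀ φ : MvPolynomial (Fin n) k →ₐ[k] MvPolynomial (Fin m) k, Function.Surjective φ →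
      ∃ f : Fin (n - m) → MvPolynomial (Fin n) k,
        Ideal.span (Set.range f) = RingHom.ker φ := by
  intro k _ _ n m hn h φ hφ
  exact Pool.Agent.H85.AAE2.final hn h φ hφ

end Pool.Agent.Results.MP_ae801b_ag.InfiniteField
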